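import Pool.Agent.MWV.Stmts

/-!
# Row FRM of squad MWV: position of the end groups of the moved letter
-/

namespace Pool.Agent.MWV.H44

open Pool.Agent.MWV

theorem im_append (N : ℕ) (f : ℕ → List ℕ) (u v : List ℕ) :
    im N f (u ++ v) = im N f u ++ im N f v := by
  unfold im
  rw [List.flatMap_append]

theorem im_cons (N : ℕ) (f : ℕ → List ℕ) (a : ℕ) (v : List ℕ) (ha : a % 3 ≠ 0) :
    im N f (a :: v) = f a ++ im N f v := by
  unfold im
  rw [List.flatMap_cons, if_neg ha]

theorem im_fac (N : ℕ) (f : ℕ → List ℕ) {a : ℕ} {v : List ℕ} (ha : a % 3 ≠ 0) (h : a ∈ v) :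
    ∃ x1 x2, im N f v = x1 ++ (f a ++ x2) := by
  obtain ⟨s, t, rfl⟩ := List.append_of_mem h
  exact ⟨im N f s, im N f t, by rw [im_append, im_cons N f a t ha]⟩

theorem mem_pl {P : List ℕ} {a : ℕ} (h : a ∈ pl P) : ∃ e ∈ P, a = 3 * e + 8 ∨ a = 3 * e + 1 := by
  obtain ⟨e, he, h2⟩ := List.mem_flatMap.1 h
  exact ⟨e, he, by simpa using h2⟩

theorem mem_pr {P : List ℕ} {a : ℕ} (h : a ∈ pr P) : ∃ e ∈ P, a = 3 * e + 1 ∨ a = 3 * e + 8 := by
  obtain ⟨e, he, h2⟩ := List.mem_flatMap.1 h
  exact ⟨e, he, by simpa using h2⟩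

theorem pl_nh {P : List ℕ} {a : ℕ} (h : a ∈ pl P) : a % 3 ≠ 0 := by
  obtain ⟨e, _, h | h⟩ := mem_pl h <;> omega

theorem pr_nh {P : List ℕ} {a : ℕ} (h : a ∈ pr P) : a % 3 ≠ 0 := by
  obtain ⟨e, _, h | h⟩ := mem_pr h <;> omega

theorem pl_mem {P : List ℕ} {e : ℕ} (h : e ∈ P) : 3 * e + 1 ∈ pl P :=
  List.mem_flatMap.2 ⟨e, h, by simp⟩

theorem pr_mem {P : List ℕ} {e : ℕ} (h : e ∈ P) : 3 * e + 1 ∈ pr P :=
  List.mem_flatMap.2 ⟨e, h, by simp⟩

/-- the count in the places -/
theorem cnt_pl (P : List ℕ) (a : ℕ) : (pl P).count a ≤ P.count (if a % 3 = 1 then a / 3 else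
    (a - 8) / 3) ∧ (a < 8 → a % 3 ≠ 1 → (pl P).count a = 0) := by
  induction P with
  | nil => exact ⟨Nat.le_refl _, fun _ _ => rfl⟩
  | cons e P ih =>
    have e1 : pl (e :: P) = [3 * e + 8, 3 * e + 1] ++ pl P := rfl
    rw [e1, List.count_append, List.count_cons (b := e)]
    obtain ⟨h1, h2⟩ := ih
    have e2 : ([3 * e + 8, 3 * e + 1] : List ℕ).count a =
        (if 3 * e + 8 = a then 1 else 0) + (if 3 * e + 1 = a then 1 else 0) := by
      rw [List.count_cons, List.count_cons, List.count_nil]
      simp only [beq_iff_eq]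
      omega
    rw [e2]
    refine ⟨?_, ?_⟩
    · by_cases ha : a % 3 = 1
      · rw [if_pos ha] at h1 ⊢
        have h3 : ¬ 3 * e + 8 = a := by omega
        rw [if_neg h3]
        by_cases h4 : 3 * e + 1 = a
        · have h5 : (e == a / 3) = true := by
            rw [beq_iff_eq]; omega
          rw [if_pos h4, if_pos h5]
          omega
        · rw [if_neg h4]
          omega
      · rw [if_neg ha] at h1 ⊢
        have h3 : ¬ 3 * e + 1 = a := by omega
        rw [if_neg h3]
        by_cases h4 : 3 * e + 8 = a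
        · have h5 : (e == (a - 8) / 3) = true := by
            rw [beq_iff_eq]; omega
          rw [if_pos h4, if_pos h5]
          omega
        · rw [if_neg h4]
          omega
    · intro h3 h4
      rw [if_neg (by omega), if_neg (by omega), h2 h3 h4]

theorem cnt_pr (P : List ℕ) (a : ℕ) : (pr P).count a = (pl P).count a := by
  induction P with
  | nil => rfl
  | cons e P ih =>
    have e1 : pl (e :: P) = [3 * e + 8, 3 * e + 1] ++ pl P := rfl
    have e2 : pr (e :: P) = [3 * e + 1, 3 * e + 8] ++ pr P := rfl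
    rw [e1, e2, List.count_append, List.count_append, ih]
    have : ([3 * e + 1, 3 * e + 8] : List ℕ).count a = [3 * e + 8, 3 * e + 1].count a := by
      apply List.Perm.count_eq
      exact List.Perm.swap _ _ _
    rw [this]

/-- the letters which are not heavy occur at most twice -/
theorem cnt_w {P Q L : List ℕ} (hn : (P ++ Q).Nodup) (hk : Ok P Q L) {a : ℕ} (ha : a % 3 ≠ 0) :
    (W P Q L).count a ≤ 2 := by
  have hcount : (W P Q L).count a = (pl P).count a + ((L.count a + ((pr Q).count a +
      if 5 = a then 1 else 0)) + if 2 = a then 1 else 0) := by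
    unfold W
    rw [List.count_append, List.count_cons, List.count_append, List.count_cons]
    simp only [beq_iff_eq]
  rw [hcount, cnt_pr]
  obtain ⟨p1, p2⟩ := cnt_pl P a
  obtain ⟨q1, q2⟩ := cnt_pl Q a
  have h3 : P.count (if a % 3 = 1 then a / 3 else (a - 8) / 3) +
      Q.count (if a % 3 = 1 then a / 3 else (a - 8) / 3) ≤ 1 := by
    rw [← List.count_append]
    exact List.nodup_iff_count_le_one.1 hn _
  have hL : L.count a ≤ 1 ∧ (a % 3 = 2 → L.count a = 0) := by
    by_cases hm : a ∈ L
    · rcases hk.mem a hm with h | ⟨e, he, h⟩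
      · exact absurd h ha
      · subst h
        rw [hk.one e he]
        exact ⟨Nat.le_refl _, fun h => by omega⟩
    · rw [List.count_eq_zero.2 hm]
      exact ⟨by omega, fun _ => rfl⟩
  by_cases h1 : a % 3 = 1
  · rw [if_neg (show ¬ 5 = a by omega), if_neg (show ¬ 2 = a by omega)]
    omega
  · have h2 : a % 3 = 2 := by omega
    rw [hL.2 h2]
    by_cases h8 : a < 8
    · rw [p2 h8 h1, q2 h8 h1]
      split_ifs <;> omega
    · rw [if_neg (show ¬ 5 = a by omega), if_neg (show ¬ 2 = a by omega)]
      omega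

/-- letters of `f m` occur twice in the image of `X N m` -/
theorem im_x (N : ℕ) (f : ℕ → List ℕ) {m : ℕ} (hm : m % 3 = 0) (hN : 1 ≤ N) :
    ∃ v, im N f (X N m) = f m ++ (f m ++ v) ∧ (∀ a ∈ v, a ∈ f m) := by
  obtain ⟨K, rfl⟩ : ∃ K, N = K + 1 := ⟨N - 1, by omega⟩
  refine ⟨(List.replicate K (f m)).flatten ++ im (K + 1) f (X K m), ?_, ?_⟩
  · have e1 : X (K + 1) m = m :: X K m := rfl
    rw [e1]
    unfold im
    rw [List.flatMap_cons, if_pos hm]
    have e2 : (List.replicate (K + 1 + 1) (f m)).flatten =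
        f m ++ (f m ++ (List.replicate K (f m)).flatten) := by
      rw [List.replicate_succ, List.replicate_succ, List.flatten_cons, List.flatten_cons]
    rw [e2]
    simp only [List.append_assoc]
  · intro a ha
    rcases List.mem_append.1 ha with h | h
    · obtain ⟨l, hl, hal⟩ := List.mem_flatten.1 h
      rw [List.eq_of_mem_replicate hl] at hal
      exact hal
    · unfold im at h
      obtain ⟨c, hc, hac⟩ := List.mem_flatMap.1 h
      have hc' : c = m := List.eq_of_mem_replicate hc
      subst hc'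
      rw [if_pos hm] at hac
      obtain ⟨l, hl, hal⟩ := List.mem_flatten.1 hac
      rw [List.eq_of_mem_replicate hl] at hal
      exact hal

/-- **FRM** -/
theorem frm : FrmStmt := by
  intro N f P' Q' m μ α γ p q L1 hN hnd hm hf hok heq
  obtain ⟨v, hv, hvm⟩ := im_x N f hm hN
  -- the equation
  have heq2 : (p ++ (im N f (pl P') ++ (f 2 ++ im N f α))) ++ (im N f (X N m) ++ (im N f μ ++
      (im N f (X N m) ++ (im N f γ ++ (f 5 ++ (im N f (pr Q') ++ q)))))) =
      (pl P' ++ [2]) ++ (L1 ++ 5 :: pr Q') := by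
    have e1 : im N f (W P' Q' (α ++ (X N m ++ (μ ++ (X N m ++ γ))))) =
        im N f (pl P') ++ (f 2 ++ (im N f α ++ (im N f (X N m) ++ (im N f μ ++
          (im N f (X N m) ++ (im N f γ ++ (f 5 ++ im N f (pr Q')))))))) := by
      unfold W
      rw [im_append, im_cons N f 2 _ (by decide)]
      simp only [im_append, im_cons N f 5 _ (by decide : 5 % 3 ≠ 0), List.append_assoc]
    rw [e1] at heq
    have e2 : W P' Q' L1 = (pl P' ++ [2]) ++ (L1 ++ 5 :: pr Q') := by
      unfold W
      rw [List.append_assoc]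
      rfl
    rw [e2] at heq
    rw [← heq]
    simp only [List.append_assoc]
  -- the letters of `f m` are heavy
  have hcf : ∀ a ∈ f m, a % 3 = 0 := by
    intro a ha
    by_contra hne
    have h1 := cnt_w hnd hok hne
    have e2 : W P' Q' L1 = (pl P' ++ [2]) ++ (L1 ++ 5 :: pr Q') := by
      unfold W
      rw [List.append_assoc]
      rfl
    rw [e2, ← heq2, hv] at h1
    simp only [List.count_append] at h1
    have h2 : 0 < (f m).count a := List.count_pos_iff.2 ha
    omega
  have hw0 : ∀ a ∈ im N f (X N m), a % 3 = 0 := by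
    intro a ha
    rw [hv] at ha
    rcases List.mem_append.1 ha with h | h
    · exact hcf a h
    · rcases List.mem_append.1 h with h | h
      · exact hcf a h
      · exact hcf a (hvm a h)
  have hw0ne : im N f (X N m) ≠ [] := by
    rw [hv]
    intro h
    exact hf (List.append_eq_nil_iff.1 h).1
  -- the prefix
  have hp : ∃ α1, p ++ (im N f (pl P') ++ (f 2 ++ im N f α)) = pl P' ++ 2 :: α1 ∧
      L1 ++ 5 :: pr Q' = α1 ++ (im N f (X N m) ++ (im N f μ ++
        (im N f (X N m) ++ (im N f γ ++ (f 5 ++ (im N f (pr Q') ++ q)))))) := by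
    rcases List.append_eq_append_iff.1 heq2 with ⟨as, h1, h2⟩ | ⟨cs, h1, h2⟩
    · rcases as with _ | ⟨c, as⟩
      · refine ⟨[], ?_, ?_⟩
        · rw [List.append_nil] at h1
          rw [← h1]
        · exact h2.symm
      · exfalso
        have hc : c ∈ pl P' ++ [2] := by
          rw [h1]
          exact List.mem_append_right _ (List.mem_cons_self ..)
        have hc' : c % 3 ≠ 0 := by
          rcases List.mem_append.1 hc with h | h
          · exact pl_nh h
          · have : c = 2 := by simpa using h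
            omega
        obtain ⟨d, w, hdw⟩ := List.exists_cons_of_ne_nil hw0ne
        rw [hdw] at h2
        have hd : d = c := by
          have := congrArg List.head? h2
          simpa using this
        apply hc'
        rw [← hd]
        apply hw0
        rw [hdw]
        exact List.mem_cons_self ..
    · refine ⟨cs, ?_, h2⟩
      rw [h1, List.append_assoc]
      rfl
  obtain ⟨α1, hα1, hα2⟩ := hp
  -- the suffix
  have hs : ∃ γ1, im N f γ ++ (f 5 ++ (im N f (pr Q') ++ q)) = γ1 ++ 5 :: pr Q' ∧
      L1 = (α1 ++ (im N f (X N m) ++ (im N f μ ++ im N f (X N m)))) ++ γ1 := by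
    have h0 : (α1 ++ (im N f (X N m) ++ (im N f μ ++ im N f (X N m)))) ++
        (im N f γ ++ (f 5 ++ (im N f (pr Q') ++ q))) = L1 ++ (5 :: pr Q') := by
      rw [hα2]
      simp only [List.append_assoc]
    rcases List.append_eq_append_iff.1 h0 with ⟨as, h1, h2⟩ | ⟨cs, h1, h2⟩
    · exact ⟨as, h2, h1⟩
    · rcases List.eq_nil_or_concat cs with hcs | ⟨cs', d, hcs⟩
      · subst hcs
        refine ⟨[], ?_, ?_⟩
        · rw [List.nil_append] at h2 ⊢
          exact h2.symm
        · rw [List.append_nil] at h1 ⊢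
          exact h1.symm
      · exfalso
        subst hcs
        have hd : d ∈ 5 :: pr Q' := by
          rw [h2]
          simp
        have hd' : d % 3 ≠ 0 := by
          rcases List.mem_cons.1 hd with h | h
          · omega
          · exact pr_nh h
        apply hd'
        obtain ⟨w, c, hwc⟩ : ∃ w c, im N f (X N m) = w ++ [c] := by
          rcases List.eq_nil_or_concat (im N f (X N m)) with h | ⟨w, c, h⟩
          · exact absurd h hw0ne
          · exact ⟨w, c, by rw [h, List.concat_eq_append]⟩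
        have h3 : c = d := by
          rw [hwc, List.concat_eq_append] at h1
          have h4 : (α1 ++ ((w ++ [c]) ++ (im N f μ ++ w))) ++ [c] = (L1 ++ cs') ++ [d] := by
            simp only [List.append_assoc] at h1 ⊢
            exact h1
          have h5 := (List.append_inj' h4 rfl).2
          simpa using h5
        rw [← h3]
        apply hw0
        rw [hwc]
        simp
  obtain ⟨γ1, hγ1, hγ2⟩ := hs
  have hL : L1 = α1 ++ (im N f (X N m) ++ (im N f μ ++ (im N f (X N m) ++ γ1))) := by
    rw [hγ2]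
    simp only [List.append_assoc]
  refine ⟨α1, γ1, ⟨?_, hcf, ?_, ?_⟩, hL, ?_, ?_, hα1, hγ1⟩
  · rw [← hL]; exact hok
  · intro i hi _
    obtain ⟨x1, x2, h⟩ := im_fac N f (a := 3 * i + 1) (v := pl P') (by omega) (pl_mem hi)
    refine ⟨p ++ x1, x2 ++ (f 2 ++ im N f α), ?_⟩
    rw [← hα1, h]
    simp only [List.append_assoc]
  · intro i hi _
    obtain ⟨x1, x2, h⟩ := im_fac N f (a := 3 * i + 1) (v := pr Q') (by omega) (pr_mem hi)
    refine ⟨im N f γ ++ (f 5 ++ x1), x2 ++ q, ?_⟩
    rw [← hγ1, h]
    simp only [List.append_assoc]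
  · intro a ha h0
    have h1 : a ∈ pl P' ++ 2 :: α1 := by
      rw [← hα1]
      simp only [List.mem_append]
      exact Or.inr (Or.inr (Or.inr ha))
    rcases List.mem_append.1 h1 with h | h
    · exact absurd h0 (pl_nh h)
    · rcases List.mem_cons.1 h with h | h
      · omega
      · exact h
  · intro a ha h0
    have h1 : a ∈ γ1 ++ 5 :: pr Q' := by
      rw [← hγ1]
      exact List.mem_append_left _ ha
    rcases List.mem_append.1 h1 with h | h
    · exact h
    · rcases List.mem_cons.1 h with h | h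
      · omega
      · exact absurd h0 (pr_nh h)

end Pool.Agent.MWV.H44
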